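import Pool.Agent.R768.RG.Fld

set_option autoImplicit false

/-!
# Products of realizations
-/

namespace Pool.Agent.R768.RG

open IntermediateField

theorem exists_equiv {A B C : Type} [Group A] [Group B] [Group C] (f : A →* B) (q : A →* C)
    (hf : Function.Surjective f) (hq : Function.Surjective q) (hker : f.ker = q.ker) :
    ∃ γ : B ≃* C, ∀ x, γ (f x) = q x := by
  let e1 := QuotientGroup.quotientKerEquivOfSurjective f hf
  let e2 := QuotientGroup.quotientKerEquivOfSurjective q hq
  let e3 := QuotientGroup.quotientMulEquivOfEq hker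
  refine ⟨e1.symm.trans (e3.trans e2), fun x => ?_⟩
  have h1 : e1.symm (f x) = (QuotientGroup.mk x : A ⧸ f.ker) := by
    rw [MulEquiv.symm_apply_eq]
    rfl
  show e2 (e3 (e1.symm (f x))) = q x
  rw [h1]
  rfl

/-- the fixed field of the kernel of an epimorphism -/
theorem sub_equiv {k L B : Type} [Field k] [Field L] [Algebra k L] [FiniteDimensional k L]
    [IsGalois k L] [Group B] (q : (L ≃ₐ[k] L) →* B) (hq : Function.Surjective q) :
    ∃ (_ : IsGalois k (fixedField q.ker)) (γ : (fixedField q.ker ≃ₐ[k] fixedField q.ker) ≃* B),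
      ∀ (σ : L ≃ₐ[k] L), ∃ τ : fixedField q.ker ≃ₐ[k] fixedField q.ker,
        (∀ x : fixedField q.ker, ((τ x : fixedField q.ker) : L) = σ (x : L)) ∧ γ τ = q σ := by
  have hG : IsGalois k (fixedField q.ker) := IsGalois.of_fixedField_normal_subgroup q.ker
  have hker : (AlgEquiv.restrictNormalHom (fixedField q.ker) :
      (L ≃ₐ[k] L) →* (fixedField q.ker ≃ₐ[k] fixedField q.ker)).ker = q.ker := by
    ext σ
    rw [MonoidHom.mem_ker]
    constructor
    · intro h
      have h1 : σ ∈ (fixedField q.ker).fixingSubgroup := by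
        rw [IntermediateField.mem_fixingSubgroup_iff]
        intro x hx
        have h2 := AlgEquiv.restrictNormal_commutes σ (fixedField q.ker)
          (⟨x, hx⟩ : fixedField q.ker)
        have h3 : σ.restrictNormal (fixedField q.ker) = 1 := h
        rw [h3] at h2
        exact h2.symm
      rwa [IntermediateField.fixingSubgroup_fixedField] at h1
    · intro h
      apply AlgEquiv.ext
      intro x
      apply Subtype.ext
      have h1 := AlgEquiv.restrictNormal_commutes σ (fixedField q.ker) x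
      exact h1.trans (x.2 ⟨σ, h⟩)
  obtain ⟨γ, hγ⟩ := exists_equiv (AlgEquiv.restrictNormalHom (fixedField q.ker) :
      (L ≃ₐ[k] L) →* (fixedField q.ker ≃ₐ[k] fixedField q.ker)) q
    (AlgEquiv.restrictNormalHom_surjective L) hq hker
  refine ⟨hG, γ, fun σ => ⟨AlgEquiv.restrictNormalHom (fixedField q.ker) σ, fun x => ?_, hγ σ⟩⟩
  exact AlgEquiv.restrictNormal_commutes σ (fixedField q.ker) x

/-- the kernels of two coordinates generate -/
theorem sup_eq_top {A Γ G : Type} [Group A] [Group Γ] [Group G] {m : ℕ} (e : A ≃* (Fin m → Γ))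
    (c : Γ →* G) {i j : Fin m} (hij : i ≠ j) :
    (c.comp ((Pi.evalMonoidHom _ i).comp e.toMonoidHom)).ker ⊔
      (c.comp ((Pi.evalMonoidHom _ j).comp e.toMonoidHom)).ker = ⊤ := by
  rw [eq_top_iff]
  intro σ _
  have h1 : e.symm (Function.update (e σ) i 1) ∈
      (c.comp ((Pi.evalMonoidHom _ i).comp e.toMonoidHom)).ker := by
    rw [MonoidHom.mem_ker]
    show c (e (e.symm (Function.update (e σ) i 1)) i) = 1
    rw [MulEquiv.apply_symm_apply, Function.update_self, map_one]
  have h2 : e.symm (Pi.mulSingle i (e σ i)) ∈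
      (c.comp ((Pi.evalMonoidHom _ j).comp e.toMonoidHom)).ker := by
    rw [MonoidHom.mem_ker]
    show c (e (e.symm (Pi.mulSingle i (e σ i))) j) = 1
    rw [MulEquiv.apply_symm_apply, Pi.mulSingle_eq_of_ne hij.symm, map_one]
  have h3 : σ = e.symm (Function.update (e σ) i 1) * e.symm (Pi.mulSingle i (e σ i)) := by
    rw [← map_mul, MulEquiv.eq_symm_apply]
    funext t
    by_cases ht : t = i
    · subst ht
      simp
    · simp [Function.update_of_ne ht, Pi.mulSingle_eq_of_ne ht]
  rw [h3]
  exact Subgroup.mul_mem_sup h1 h2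

/-- **one coordinate is regular** -/
theorem product {κ L Γ G : Type} [Field κ] [Finite κ] [Field L] [Algebra (RatFunc κ) L]
    [FiniteDimensional (RatFunc κ) L] [IsGalois (RatFunc κ) L] [Algebra κ L]
    [IsScalarTower κ (RatFunc κ) L] [Group Γ] [Group G] [Finite G] (c : Γ →* G)
    (m : ℕ) (hm : (Nat.card G).primeFactors.card < m) (e : (L ≃ₐ[RatFunc κ] L) ≃* (Fin m → Γ)) :
    ∃ i : Fin m, ∀ x : L, (∀ σ : L ≃ₐ[RatFunc κ] L, c (e σ i) = 1 → σ x = x) →
      IsAlgebraic κ x → x ∈ Set.range (algebraMap κ L) := by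
  obtain ⟨i, hi⟩ := exists_regular (κ := κ) (L := L)
    (fun i : Fin m => (c.comp ((Pi.evalMonoidHom _ i).comp e.toMonoidHom)).ker)
    (fun i j hij => sup_eq_top e c hij) (g := Nat.card G) Nat.card_pos.ne'
    (fun i => by
      rw [Subgroup.index_ker]
      exact Subgroup.card_subgroup_dvd_card _)
    (by rwa [Fintype.card_fin])
  exact ⟨i, fun x hx hxa => hi x (fun σ hσ => hx σ (MonoidHom.mem_ker.1 hσ)) hxa⟩

end Pool.Agent.R768.RG
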