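import Pool.Agent.R768.RG.Main
import Pool.Agent.TH377.IG.Bc2
import Pool.Agent.TH444.TW.Cls

set_option autoImplicit false

/-!
# Extension of the finite field of constants
-/

namespace Pool.Agent.R768.RG

open Pool.Agent.TH377.IG

theorem ratFunc_hom_ext {K F : Type} [Field K] [Field F] (f g : RatFunc K →+* F)
    (h1 : ∀ a : K, f (algebraMap K (RatFunc K) a) = g (algebraMap K (RatFunc K) a))
    (h2 : f RatFunc.X = g RatFunc.X) : f = g := by
  apply IsLocalization.ringHom_ext (nonZeroDivisors (Polynomial K))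
  apply Polynomial.ringHom_ext
  · intro a
    have := h1 a
    rw [IsScalarTower.algebraMap_apply K (Polynomial K) (RatFunc K)] at this
    exact this
  · show f (algebraMap _ _ Polynomial.X) = g (algebraMap _ _ Polynomial.X)
    rw [RatFunc.algebraMap_X]
    exact h2

/-- a group which occurs regularly over `κ` occurs over `κ'(X)` -/
theorem occ_ext (κ κ' : Type) [Field κ] [Finite κ] [Field κ'] [Finite κ'] [Algebra κ κ']
    (H : Type) [Group H] [Finite H] (h : OccReg κ H) : Occ (RatFunc κ') H := by
  have hfd : FiniteDimensional κ κ' := Module.Finite.of_finite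
  have hgal : IsGalois κ κ' := inferInstance
  obtain ⟨F, i1, i2, i3, i4, i5, i6, i7, i8, γ, hγ⟩ := base_change κ κ H 1
    (Pool.Agent.TH444.TW.regSol_of_regularOver h) κ'
  have halg : Algebra.IsAlgebraic κ κ' := inferInstance
  set x : F := algebraMap (RatFunc κ) F RatFunc.X with hx
  have hxt : Transcendental κ' x := by
    intro hc
    have h1 : IsAlgebraic κ x := hc.restrictScalars κ
    rw [hx, isAlgebraic_algebraMap_iff (algebraMap (RatFunc κ) F).injective] at h1
    exact RatFunc.transcendental_X h1
  let φ0 : Polynomial κ' →+* F := Polynomial.eval₂RingHom (algebraMap κ' F) x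
  have hφ0 : Function.Injective φ0 := by
    rw [injective_iff_map_eq_zero]
    intro P hP
    by_contra hne
    exact hxt ⟨P, hne, hP⟩
  let φ : RatFunc κ' →+* F := IsLocalization.lift (M := nonZeroDivisors (Polynomial κ'))
    (g := φ0) (fun y => by
      apply IsUnit.mk0
      intro h0
      exact nonZeroDivisors.ne_zero y.2 (hφ0 (by rw [h0, map_zero])))
  have hφX : φ RatFunc.X = x := by
    rw [← RatFunc.algebraMap_X]
    show IsLocalization.lift _ _ = _
    rw [IsLocalization.lift_eq]
    simp [φ0]
  have hφc : ∀ a : κ', φ (algebraMap κ' (RatFunc κ') a) = algebraMap κ' F a := by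
    intro a
    rw [IsScalarTower.algebraMap_apply κ' (Polynomial κ') (RatFunc κ')]
    show IsLocalization.lift _ _ = _
    rw [IsLocalization.lift_eq]
    simp [φ0]
  let aF : Algebra (RatFunc κ') F := φ.toAlgebra
  let ψ : RatFunc κ →+* RatFunc κ' := IsLocalization.lift (M := nonZeroDivisors (Polynomial κ))
    (g := (algebraMap (Polynomial κ') (RatFunc κ')).comp (Polynomial.mapRingHom (algebraMap κ κ')))
    (fun y => by
      apply IsUnit.mk0
      intro h0
      rw [RingHom.comp_apply] at h0
      have h1 := (IsFractionRing.injective (Polynomial κ') (RatFunc κ'))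
        (h0.trans (map_zero _).symm)
      exact nonZeroDivisors.ne_zero y.2
        (Polynomial.map_injective _ (algebraMap κ κ').injective (h1.trans (Polynomial.map_zero _).symm)))
  have hψX : ψ RatFunc.X = RatFunc.X := by
    rw [← RatFunc.algebraMap_X]
    show IsLocalization.lift _ _ = _
    rw [IsLocalization.lift_eq]
    simp
  have hψc : ∀ a : κ, ψ (algebraMap κ (RatFunc κ) a) = algebraMap κ' (RatFunc κ') (algebraMap κ κ' a) := by
    intro a
    rw [IsScalarTower.algebraMap_apply κ (Polynomial κ) (RatFunc κ),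
      IsScalarTower.algebraMap_apply κ' (Polynomial κ') (RatFunc κ')]
    show IsLocalization.lift _ _ = _
    rw [IsLocalization.lift_eq]
    simp
  let aR : Algebra (RatFunc κ) (RatFunc κ') := ψ.toAlgebra
  have tow : @IsScalarTower (RatFunc κ) (RatFunc κ') F aR.toSMul aF.toSMul i2.toSMul := by
    apply @IsScalarTower.of_algebraMap_eq (RatFunc κ) (RatFunc κ') F _ _ _ aR aF i2
    intro f
    have h1 : (algebraMap (RatFunc κ) F) = φ.comp ψ := by
      apply ratFunc_hom_ext
      · intro a
        rw [RingHom.comp_apply, hψc, hφc, ← IsScalarTower.algebraMap_apply κ (RatFunc κ) F,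
          ← IsScalarTower.algebraMap_apply κ κ' F]
      · rw [RingHom.comp_apply, hψX, hφX]
    exact congrArg (fun g : RatFunc κ →+* F => g f) h1
  have hfd2 : @FiniteDimensional (RatFunc κ') F _ _ aF.toModule := by
    letI := aR
    letI := aF
    haveI := tow
    exact Module.Finite.of_restrictScalars_finite (RatFunc κ) (RatFunc κ') F
  have hgal2 : @IsGalois (RatFunc κ') _ F _ aF :=
    @IsGalois.tower_top_of_isGalois (RatFunc κ) (RatFunc κ') F _ _ _ aR i2 aF tow i8
  -- the group
  have hact : ∀ σ : F ≃ₐ[RatFunc κ] F, (∀ a : κ', σ (algebraMap κ' F a) = algebraMap κ' F a) →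
      ∀ f : RatFunc κ', σ (φ f) = φ f := by
    intro σ hσ f
    have h1 : (σ : F →+* F).comp φ = φ := by
      apply ratFunc_hom_ext
      · intro a
        rw [RingHom.comp_apply, hφc]
        exact hσ a
      · rw [RingHom.comp_apply, hφX]
        exact σ.commutes _
    exact congrArg (fun g : RatFunc κ' →+* F => g f) h1
  let res : (F ≃ₐ[RatFunc κ'] F) →* (F ≃ₐ[RatFunc κ] F) :=
    @AlgEquiv.restrictScalarsHom (RatFunc κ) (RatFunc κ') F _ _ _ aR aF i2 tow
  have hres : ∀ (τ : F ≃ₐ[RatFunc κ'] F) (y : F), res τ y = τ y := fun _ _ => rfl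
  let q : (F ≃ₐ[RatFunc κ'] F) →* H :=
    (MonoidHom.fst H (κ' ≃ₐ[κ] κ')).comp ((Subgroup.subtype _).comp (γ.toMonoidHom.comp res))
  have hq : ∀ τ, q τ = (γ (res τ)).1.1 := fun _ => rfl
  have hinj : Function.Injective q := by
    rw [injective_iff_map_eq_one]
    intro τ hτ
    have h1 : (γ (res τ)).1.2 = 1 := by
      apply AlgEquiv.ext
      intro a
      apply (algebraMap κ' F).injective
      have h2 := hγ (res τ) a
      have h3 : res τ (algebraMap κ' F a) = algebraMap κ' F a := by
        rw [hres, ← hφc]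
        exact τ.commutes _
      rw [h3] at h2
      exact h2.symm
    have h4 : γ (res τ) = 1 := Subtype.ext (Prod.ext hτ h1)
    have h5 : res τ = 1 := by
      apply γ.injective
      rw [h4, map_one]
    apply AlgEquiv.ext
    intro y
    rw [← hres, h5]
    rfl
  have hsurj : Function.Surjective q := by
    intro g
    let z : FP (1 : H →* (κ ≃ₐ[κ] κ)) (AlgEquiv.restrictNormalHom (F := κ) (K₁ := κ') κ) :=
      ⟨(g, 1), by rw [mem_FP, MonoidHom.one_apply, map_one]⟩
    have h1 : ∀ a : κ', (γ.symm z) (algebraMap κ' F a) = algebraMap κ' F a := by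
      intro a
      rw [hγ, MulEquiv.apply_symm_apply]
      rfl
    let τ : F ≃ₐ[RatFunc κ'] F := AlgEquiv.ofRingEquiv (f := (γ.symm z).toRingEquiv)
      (fun f => hact (γ.symm z) h1 f)
    refine ⟨τ, ?_⟩
    have h2 : res τ = γ.symm z := AlgEquiv.ext fun y => rfl
    rw [hq, h2, MulEquiv.apply_symm_apply]
  exact ⟨F, i1, aF, hfd2, hgal2, ⟨MulEquiv.ofBijective q ⟨hinj, hsurj⟩⟩⟩

end Pool.Agent.R768.RG
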