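import Pool.Agent.R768.RG.Grp

set_option autoImplicit false

/-!
# Constants in Galois extensions of `κ(X)`, `κ` finite
-/

namespace Pool.Agent.R768.RG

open IntermediateField

theorem fixed_const {κ L : Type} [Field κ] [Field L] [Algebra (RatFunc κ) L]
    [FiniteDimensional (RatFunc κ) L] [IsGalois (RatFunc κ) L] [Algebra κ L]
    [IsScalarTower κ (RatFunc κ) L] (z : L) (hz : IsAlgebraic κ z)
    (h : ∀ σ : L ≃ₐ[RatFunc κ] L, σ z = z) : z ∈ Set.range (algebraMap κ L) := by
  have h1 : z ∈ (⊥ : IntermediateField (RatFunc κ) L) := (IsGalois.mem_bot_iff_fixed z).2 h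
  rw [IntermediateField.mem_bot] at h1
  obtain ⟨f, rfl⟩ := h1
  have h2 : IsAlgebraic κ f :=
    (isAlgebraic_algebraMap_iff (algebraMap (RatFunc κ) L).injective).1 hz
  by_contra hc
  apply RatFunc.transcendental_of_ne_C f _ h2
  rintro ⟨c, rfl⟩
  apply hc
  refine ⟨c, ?_⟩
  rw [IsScalarTower.algebraMap_apply κ (RatFunc κ) L]
  rfl

theorem exists_regular {κ L : Type} [Field κ] [Finite κ] [Field L] [Algebra (RatFunc κ) L]
    [FiniteDimensional (RatFunc κ) L] [IsGalois (RatFunc κ) L] [Algebra κ L]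
    [IsScalarTower κ (RatFunc κ) L] {ι : Type} [Fintype ι]
    (Q : ι → Subgroup (L ≃ₐ[RatFunc κ] L)) (hQ : ∀ i j, i ≠ j → Q i ⊔ Q j = ⊤) {g : ℕ}
    (hg : g ≠ 0) (hidx : ∀ i, (Q i).index ∣ g) (hcard : g.primeFactors.card < Fintype.card ι) :
    ∃ i, ∀ x : L, (∀ σ ∈ Q i, σ x = x) → IsAlgebraic κ x → x ∈ Set.range (algebraMap κ L) := by
  by_contra hcon
  push Not at hcon
  choose x hx hxalg hxn using hcon
  set C : IntermediateField κ L := adjoin κ (Set.range x) with hC
  have hfd : FiniteDimensional κ C := by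
    apply finiteDimensional_adjoin
    rintro y ⟨i, rfl⟩
    exact (hxalg i).isIntegral
  have hfin : Finite C := Module.finite_of_finite κ
  have hgal : IsGalois κ C := inferInstance
  have hcyc : IsCyclic (C ≃ₐ[κ] C) := inferInstance
  have hfinG : Finite (C ≃ₐ[κ] C) := inferInstance
  let r : (L ≃ₐ[RatFunc κ] L) →* (C ≃ₐ[κ] C) :=
    (AlgEquiv.restrictNormalHom (F := κ) (K₁ := L) C).comp (AlgEquiv.restrictScalarsHom κ)
  have hr : ∀ (σ : L ≃ₐ[RatFunc κ] L) (c : C), ((r σ c : C) : L) = σ (c : L) := fun σ c =>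
    AlgEquiv.restrictNormal_commutes (σ.restrictScalars κ) C c
  let c : ι → C := fun i => ⟨x i, subset_adjoin κ _ ⟨i, rfl⟩⟩
  have key := count_aux r Q hQ g hg hidx (fun i => MulAction.stabilizer (C ≃ₐ[κ] C) (c i))
    (by
      intro i σ hσ
      rw [MulAction.mem_stabilizer_iff]
      apply Subtype.ext
      exact (hr σ (c i)).trans (hx i σ hσ))
    (by
      intro i
      by_contra hc
      push Not at hc
      apply hxn i
      obtain ⟨w, hw⟩ := fixed_const (x i) (hxalg i) (by
        intro σ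
        have h1 := hc σ
        rw [MulAction.mem_stabilizer_iff] at h1
        have h2 := hr σ (c i)
        have h3 : r σ (c i) = c i := h1
        rw [h3] at h2
        exact h2.symm)
      exact ⟨w, hw⟩)
  omega

end Pool.Agent.R768.RG
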