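import Mathlib

set_option autoImplicit false

/-!
# Subgroups of cyclic groups and prime divisors of indices
-/

namespace Pool.Agent.R768.RG

theorem cyc_aux {W : Type} [Group W] [Finite W] [IsCyclic W] (T T' : Subgroup W) (l : ℕ)
    (hl : l.Prime) (h : l ∣ T.index) (h' : l ∣ T'.index) : T ⊔ T' ≠ ⊤ := by
  let _ := IsCyclic.commGroup (α := W)
  intro htop
  obtain ⟨z, hz⟩ := IsCyclic.exists_generator (α := W)
  have hn : 0 < Nat.card W := Nat.card_pos
  have hdiv : ∀ T : Subgroup W, ∀ d, T.index = l * d → Nat.card W / l = Nat.card T * d := by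
    intro T d hd
    have h1 : Nat.card T * T.index = Nat.card W := Subgroup.card_mul_index T
    rw [← h1, hd, mul_left_comm, Nat.mul_div_cancel_left _ hl.pos]
  have key : ∀ T : Subgroup W, l ∣ T.index →
      T ≤ (powMonoidHom (Nat.card W / l) : W →* W).ker := by
    intro T hT t ht
    rw [MonoidHom.mem_ker, powMonoidHom_apply]
    obtain ⟨d, hd⟩ := hT
    rw [hdiv T d hd, pow_mul]
    have h3 : t ^ Nat.card T = 1 := by
      have h4 := pow_card_eq_one' (x := (⟨t, ht⟩ : T))
      exact congrArg (Subtype.val : T → W) h4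
    rw [h3, one_pow]
  have h1 : (⊤ : Subgroup W) ≤ (powMonoidHom (Nat.card W / l) : W →* W).ker := by
    rw [← htop]; exact sup_le (key T h) (key T' h')
  have h2 : z ^ (Nat.card W / l) = 1 := h1 (Subgroup.mem_top z)
  have h3 : orderOf z = Nat.card W := orderOf_eq_card_of_forall_mem_zpowers hz
  have h4 : Nat.card W ∣ Nat.card W / l := by
    rw [← h3]; rw [h3]; rw [← h3] ; exact orderOf_dvd_of_pow_eq_one (by rw [h3]; exact h2)
  have h5 : Nat.card W / l < Nat.card W := Nat.div_lt_self hn hl.one_lt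
  have h6 : l ≤ Nat.card W := by
    have : l ∣ Nat.card W := h.trans ⟨Nat.card T, by
      rw [mul_comm]; exact (Subgroup.card_mul_index T).symm⟩
    exact Nat.le_of_dvd hn this
  have h7 : 0 < Nat.card W / l := Nat.div_pos h6 hl.pos
  exact absurd (Nat.le_of_dvd h7 h4) (not_le.2 h5)

theorem count_aux {A Z ι : Type} [Group A] [Group Z] [Finite Z] [IsCyclic Z] [Fintype ι]
    (r : A →* Z) (Q : ι → Subgroup A) (hQ : ∀ i j, i ≠ j → Q i ⊔ Q j = ⊤) (g : ℕ) (hg : g ≠ 0)
    (hidx : ∀ i, (Q i).index ∣ g) (S : ι → Subgroup Z) (h1 : ∀ i, ∀ a ∈ Q i, r a ∈ S i)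
    (h2 : ∀ i, ∃ a, r a ∉ S i) : Fintype.card ι ≤ g.primeFactors.card := by
  classical
  have hcyc : IsCyclic r.range := Subgroup.isCyclic _
  set f : A →* r.range := r.rangeRestrict with hf
  have hfs : Function.Surjective f := r.rangeRestrict_surjective
  set T : ι → Subgroup r.range := fun i => (Q i).map f with hT
  have hTtop : ∀ i, T i ≠ ⊤ := by
    intro i hi
    obtain ⟨a, ha⟩ := h2 i
    have h3 : f a ∈ T i := by rw [hi]; exact Subgroup.mem_top _
    obtain ⟨b, hb, hab⟩ := h3
    apply ha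
    have h4 : r b = r a := congrArg Subtype.val hab
    rw [← h4]
    exact h1 i b hb
  have hT1 : ∀ i, (T i).index ≠ 1 := fun i h => hTtop i (Subgroup.index_eq_one.1 h)
  have hTg : ∀ i, (T i).index ∣ g := by
    intro i
    have h3 : (T i).index = (Q i ⊔ f.ker).index := by
      rw [hT]
      show ((Q i).map f).index = _
      rw [Subgroup.index_map, MonoidHom.range_eq_top.2 hfs, Subgroup.index_top, mul_one]
    rw [h3]
    exact (Subgroup.index_dvd_of_le le_sup_left).trans (hidx i)
  have hl : ∀ i, ((T i).index.minFac).Prime := fun i => Nat.minFac_prime (hT1 i)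
  have hmem : ∀ i, (T i).index.minFac ∈ g.primeFactors := fun i =>
    Nat.mem_primeFactors.2 ⟨hl i, (Nat.minFac_dvd _).trans (hTg i), hg⟩
  have hinj : Function.Injective
      (fun i => (⟨(T i).index.minFac, hmem i⟩ : {x // x ∈ g.primeFactors})) := by
    intro i j hij
    by_contra hne
    have h3 : (T i).index.minFac = (T j).index.minFac := congrArg Subtype.val hij
    apply cyc_aux (T i) (T j) _ (hl i) (Nat.minFac_dvd _) (h3 ▸ Nat.minFac_dvd _)
    rw [hT]
    show (Q i).map f ⊔ (Q j).map f = ⊤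
    rw [← Subgroup.map_sup, hQ i j hne, ← MonoidHom.range_eq_map]
    exact MonoidHom.range_eq_top.2 hfs
  have := Fintype.card_le_of_injective _ hinj
  rwa [Fintype.card_coe] at this

end Pool.Agent.R768.RG
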