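import Pool.Agent.R768.RG.Asm
import Pool.Agent.Results.MP_7f581e_nt.SparseTamePlaces

set_option autoImplicit false

/-!
# From powers to regular realizations
-/

namespace Pool.Agent.R768.RG

open IntermediateField Pool.Agent.Results.MP_7f581e_nt.SparseTamePlaces

def Occ (F G : Type) [Field F] [Group G] : Prop :=
  ∃ (L : Type) (_ : Field L) (_ : Algebra F L),
    FiniteDimensional F L ∧ IsGalois F L ∧ Nonempty ((L ≃ₐ[F] L) ≃* G)

def OccReg (K G : Type) [Field K] [Group G] : Prop :=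
  ∃ (F : Type) (_ : Field F) (_ : Algebra (RatFunc K) F) (_ : Algebra K F)
    (_ : IsScalarTower K (RatFunc K) F) (_ : FiniteDimensional (RatFunc K) F)
    (_ : IsGalois (RatFunc K) F),
    Nonempty ((F ≃ₐ[RatFunc K] F) ≃* G) ∧
    ∀ y : F, IsAlgebraic K y → y ∈ Set.range (algebraMap K F)

def RegSparse (p N : ℕ) [Fact p.Prime] (G : Type) [Group G] : Prop :=
  ∃ (F : Type) (_ : Field F) (_ : Algebra (RatFunc (ZMod p)) F) (_ : Algebra (ZMod p) F)
    (_ : IsScalarTower (ZMod p) (RatFunc (ZMod p)) F)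
    (_ : FiniteDimensional (RatFunc (ZMod p)) F),
    Realization (RatFunc (ZMod p)) F G p N ∧
    ∀ y : F, IsAlgebraic (ZMod p) y → y ∈ Set.range (algebraMap (ZMod p) F)

theorem power_regular (κ : Type) [Field κ] [Finite κ] (G : Type) [Group G] [Finite G] (m : ℕ)
    (hm : (Nat.card G).primeFactors.card < m) (h : Occ (RatFunc κ) (Fin m → G)) :
    OccReg κ G := by
  obtain ⟨L, i1, i2, i3, i4, ⟨e⟩⟩ := h
  let aL : Algebra κ L := ((algebraMap (RatFunc κ) L).comp (algebraMap κ (RatFunc κ))).toAlgebra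
  have t1 : IsScalarTower κ (RatFunc κ) L := IsScalarTower.of_algebraMap_eq fun x => rfl
  obtain ⟨i, hi⟩ := product (MonoidHom.id G) m hm e
  set q : (L ≃ₐ[RatFunc κ] L) →* G := (Pi.evalMonoidHom _ i).comp e.toMonoidHom with hq
  have hqs : Function.Surjective q := by
    intro g
    refine ⟨e.symm (Pi.mulSingle i g), ?_⟩
    show e (e.symm (Pi.mulSingle i g)) i = g
    rw [MulEquiv.apply_symm_apply, Pi.mulSingle_eq_same]
  obtain ⟨hG, γ, -⟩ := sub_equiv q hqs
  let aF : Algebra κ (fixedField q.ker) :=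
    ((algebraMap (RatFunc κ) (fixedField q.ker)).comp (algebraMap κ (RatFunc κ))).toAlgebra
  have t2 : IsScalarTower κ (RatFunc κ) (fixedField q.ker) :=
    IsScalarTower.of_algebraMap_eq fun x => rfl
  have hv : ∀ x : κ, ((algebraMap κ (fixedField q.ker) x : fixedField q.ker) : L) =
      algebraMap κ L x := fun x => rfl
  refine ⟨fixedField q.ker, inferInstance, inferInstance, aF, t2, inferInstance, hG, ⟨γ⟩, ?_⟩
  intro y hy
  have hyL : IsAlgebraic κ (y : L) := by
    obtain ⟨P, hP, hP0⟩ := hy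
    refine ⟨P, hP, ?_⟩
    have h1 := congrArg (fun z : fixedField q.ker => (z : L)) hP0
    simp only [ZeroMemClass.coe_zero] at h1
    rw [← h1, Polynomial.aeval_def, Polynomial.aeval_def]
    exact (Polynomial.hom_eval₂ P (algebraMap κ (fixedField q.ker))
      (algebraMap (fixedField q.ker) L) y).symm
  obtain ⟨w, hw⟩ := hi y (fun σ hσ => y.2 ⟨σ, hσ⟩) hyL
  exact ⟨w, Subtype.ext hw⟩

theorem cover_regular (p : ℕ) [Fact p.Prime] (G Γ : Type) [Group G] [Finite G] [Group Γ]
    (N : ℕ) (c : Γ →* G) (hc : Function.Surjective c)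
    (hF : Forces (RatFunc (ZMod p)) c p N) (m : ℕ) (hm : (Nat.card G).primeFactors.card < m)
    (h : Occ (RatFunc (ZMod p)) (Fin m → Γ)) : RegSparse p N G := by
  obtain ⟨L, i1, i2, i3, i4, ⟨e⟩⟩ := h
  let aL : Algebra (ZMod p) L :=
    ((algebraMap (RatFunc (ZMod p)) L).comp (algebraMap (ZMod p) (RatFunc (ZMod p)))).toAlgebra
  have t1 : IsScalarTower (ZMod p) (RatFunc (ZMod p)) L :=
    IsScalarTower.of_algebraMap_eq fun x => rfl
  obtain ⟨i, hi⟩ := product c m hm e
  set q : (L ≃ₐ[RatFunc (ZMod p)] L) →* Γ := (Pi.evalMonoidHom _ i).comp e.toMonoidHom with hq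
  have hqs : Function.Surjective q := by
    intro g
    refine ⟨e.symm (Pi.mulSingle i g), ?_⟩
    show e (e.symm (Pi.mulSingle i g)) i = g
    rw [MulEquiv.apply_symm_apply, Pi.mulSingle_eq_same]
  obtain ⟨hG, γ, hγ⟩ := sub_equiv q hqs
  have hreal := hF (fixedField q.ker) γ
  set F := fixedField (c.comp γ.toMonoidHom).ker with hFdef
  let aF : Algebra (ZMod p) F :=
    ((algebraMap (RatFunc (ZMod p)) F).comp (algebraMap (ZMod p) (RatFunc (ZMod p)))).toAlgebra
  have t2 : IsScalarTower (ZMod p) (RatFunc (ZMod p)) F :=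
    IsScalarTower.of_algebraMap_eq fun x => rfl
  refine ⟨F, inferInstance, inferInstance, aF, t2, inferInstance, hreal, ?_⟩
  intro y hy
  let j : F →+* L := (algebraMap (fixedField q.ker) L).comp (algebraMap F (fixedField q.ker))
  have hyL : IsAlgebraic (ZMod p) (j y) := by
    obtain ⟨P, hP, hP0⟩ := hy
    refine ⟨P, hP, ?_⟩
    have h1 := congrArg j hP0
    rw [map_zero] at h1
    rw [← h1, Polynomial.aeval_def, Polynomial.aeval_def]
    exact (Polynomial.hom_eval₂ P (algebraMap (ZMod p) F) j y).symm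
  obtain ⟨w, hw⟩ := hi (j y) (by
    intro σ hσ
    obtain ⟨τ, h1, h2⟩ := hγ σ
    have h3 : τ ∈ (c.comp γ.toMonoidHom).ker := by
      rw [MonoidHom.mem_ker]
      show c (γ τ) = 1
      rw [h2]
      exact hσ
    have h4 : τ (y : fixedField q.ker) = y := y.2 ⟨τ, h3⟩
    have h5 := h1 (y : fixedField q.ker)
    rw [h4] at h5
    exact h5.symm) hyL
  refine ⟨w, ?_⟩
  apply j.injective
  rw [← hw]
  rfl

end Pool.Agent.R768.RG
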